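import Pool.Agent.Helper50.GP.St2

set_option autoImplicit false

namespace Pool.Agent.Helper50.GP

/-- a finite simple non-abelian group is generated by its elements of odd order -/
theorem odd_closure (S : Type) [Group S] [Finite S] [hS : IsSimpleGroup S]
    (hab : ∃ a b : S, a * b ≠ b * a) : Subgroup.closure {a : S | Odd (orderOf a)} = ⊤ := by
  obtain ⟨a, b, hab⟩ := hab
  have hn : (Subgroup.closure {a : S | Odd (orderOf a)}).Normal := by
    constructor
    intro x hx g
    induction hx using Subgroup.closure_induction with
    | mem x hx =>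
      apply Subgroup.subset_closure
      have e : orderOf (g * x * g⁻¹) = orderOf x := by
        have := orderOf_injective (MulAut.conj g).toMonoidHom (MulAut.conj g).injective x
        simpa using this
      change Odd (orderOf (g * x * g⁻¹))
      rw [e]; exact hx
    | one => simp
    | mul x y _ _ h1 h2 =>
      have : g * (x * y) * g⁻¹ = (g * x * g⁻¹) * (g * y * g⁻¹) := by group
      rw [this]; exact mul_mem h1 h2
    | inv x _ h1 =>
      have : g * x⁻¹ * g⁻¹ = (g * x * g⁻¹)⁻¹ := by group
      rw [this]; exact inv_mem h1
  rcases hS.eq_bot_or_eq_top_of_normal _ hn with h | h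
  · exfalso
    -- `S` would be a 2-group
    have h2 : IsPGroup 2 S := by
      rw [IsPGroup.iff_card]
      have hc : Nat.card S ≠ 0 := Nat.card_pos.ne'
      refine ⟨(Nat.card S).factorization 2, ?_⟩
      by_contra hne
      -- some odd prime divides the order
      have hm : ordCompl[2] (Nat.card S) ≠ 1 := by
        intro h1
        apply hne
        have := Nat.ordProj_mul_ordCompl_eq_self (Nat.card S) 2
        rw [h1, mul_one] at this
        exact this.symm
      obtain ⟨l, hl, hdl⟩ := Nat.exists_prime_and_dvd hm
      have hl2 : l ≠ 2 := by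
        rintro rfl
        exact Nat.not_dvd_ordCompl Nat.prime_two hc hdl
      haveI := Fact.mk hl
      obtain ⟨x, hx⟩ := exists_prime_orderOf_dvd_card' (G := S) l
        (hdl.trans (Nat.ordCompl_dvd _ _))
      have hx1 : x ∈ Subgroup.closure {a : S | Odd (orderOf a)} := by
        apply Subgroup.subset_closure
        change Odd (orderOf x)
        rw [hx]
        exact hl.odd_of_ne_two hl2
      rw [h, Subgroup.mem_bot] at hx1
      rw [hx1, orderOf_one] at hx
      exact hl.one_lt.ne hx
    haveI : Fact (Nat.Prime 2) := ⟨Nat.prime_two⟩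
    haveI : Nontrivial S := ⟨a, b, fun e => hab (by rw [e])⟩
    have hcen := h2.center_nontrivial
    rcases hS.eq_bot_or_eq_top_of_normal (Subgroup.center S) inferInstance with h3 | h3
    · rw [h3] at hcen
      exact (Subgroup.nontrivial_iff_ne_bot _).1 hcen rfl
    · apply hab
      have : a ∈ Subgroup.center S := by rw [h3]; trivial
      exact ((Subgroup.mem_center_iff.1 this) b).symm
  · exact h

theorem hODD : StODD := by
  intro n S _ _ _ hab
  rw [eq_top_iff]
  intro x _
  apply Subgroup.pi_mem_of_mulSingle_mem
  intro i
  have h1 : x i ∈ Subgroup.closure {a : S i | Odd (orderOf a)} := by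
    rw [odd_closure (S i) (hab i)]; trivial
  have h2 : MonoidHom.mulSingle S i (x i) ∈
      (Subgroup.closure {a : S i | Odd (orderOf a)}).map (MonoidHom.mulSingle S i) := ⟨_, h1, rfl⟩
  rw [MonoidHom.map_closure] at h2
  refine Subgroup.closure_mono ?_ h2
  rintro _ ⟨a, ha, rfl⟩
  have := orderOf_injective (MonoidHom.mulSingle S i) (Pi.mulSingle_injective i) a
  change Odd (orderOf (MonoidHom.mulSingle S i a))
  rw [this]; exact ha

end Pool.Agent.Helper50.GP
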