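import Pool.Agent.Helper50.GP.Asm
import Pool.Agent.Helper50.GP.M_ODD
import Pool.Agent.Helper28.GP.M_TOR
import Pool.Agent.Helper28.GP.M_SCH
import Pool.Agent.Helper99.GP.M_ABF
import Pool.Agent.Helper37.GP.M_CFS
import Pool.Agent.Helper34.GP.M_CPI
import Pool.Agent.Helper36.GP.M_SEC
import Pool.Agent.Helper40.GP.M_FHA
import Pool.Agent.Helper28.GP.M_FHB
import Pool.Agent.Helper95.GP.M_PER
import Pool.Agent.Helper8.GP.M_CEN
import Pool.Agent.Helper22.GP.M_HZI
import Pool.Agent.Helper6.GP.M_BZI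
import Pool.Agent.Helper2.GP.M_ABW
import Pool.Agent.Helper2.GP.M_NRM
import Pool.Agent.Helper29.GP.M_FIN
import Pool.Agent.Helper80.GP.M_WEV
import Pool.Agent.Helper76.GP.M_TGT
import Pool.Agent.Helper41.GP.M_TSP
import Pool.Agent.Helper90.GP.M_PRS
import Pool.Agent.Helper78.GP.M_ARI
import Pool.Agent.Helper33.GP.M_NEX
import Pool.Agent.Helper44.GP.M_EXS

/-! Project GP: all modules together. -/

set_option autoImplicit false

namespace Pool.Agent.Helper50.GP

open Pool.Agent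

theorem pTOR : StTOR := Helper28.GP.hTOR
theorem pSCH : StSCH := Helper28.GP.hSCH
theorem pABF : StABF := Helper99.GP.hABF
theorem pCFS : StCFS := Helper37.GP.hCFS
theorem pCPI : StCPI := Helper34.GP.hCPI
theorem pSEC : StSEC := Helper36.GP.hSEC
theorem pFHA : StFHA := Helper40.GP.hFHA
theorem pFHB : StFHB := Helper28.GP.hFHB pCFS
theorem pFHF : StFHF := hFHF pFHA pFHB
theorem pPER : StPER := Helper95.GP.hPER
theorem pCEN : StCEN := Helper8.GP.hCEN pPER
theorem pHZI : StHZI := Helper22.GP.hHZI pPER pCEN pFHF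
theorem pBZI : StBZI := Helper6.GP.hBZI pPER pCPI
theorem pABW : StABW := Helper2.GP.hABW
theorem pNRM : StNRM := Helper2.GP.hNRM
theorem pFIN : StFIN := Helper29.GP.hFIN pSCH pABF pNRM
theorem pWEV : StWEV := Helper80.GP.hWEV
theorem pTGT : StTGT := Helper76.GP.hTGT
theorem pTSP : StTSP := Helper41.GP.hTSP
theorem pPRS : StPRS := Helper90.GP.hPRS
theorem pARI : StARI := Helper78.GP.hARI
theorem pNEX : StNEX := Helper33.GP.hNEX
theorem pEXS : StEXS := Helper44.GP.hEXS
theorem pODD : StODD := hODD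

/-- the final theorem -/
theorem pFAM : StFAM :=
  hFAM pODD pTOR pSEC pHZI pBZI pABW pNRM pFIN pWEV pTGT pTSP pPRS pARI pNEX pEXS

end Pool.Agent.Helper50.GP
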