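import Pool.Agent.Helper50.GP.St2

/-! Project GP: assembly from the statements of the modules. -/

set_option autoImplicit false

namespace Pool.Agent.Helper50.GP

open Pool.Agent.Helper41.DZ

theorem hFHF (h1 : StFHA) (h2 : StFHB) : StFHF := by
  intro p q m g e1 e2 lam _ hp ρ hρ H _ y hy hw
  obtain ⟨b, hb1, hb2, hb3, hb4, hb5⟩ := h1 p q m g e1 e2 lam hp ρ H y hw
  haveI : Finite (ZMod p) := ZMod.fintype p |>.finite
  refine h2 (ZMod p) ρ hρ H (fun k => y k ^ e1) b hb1 hb2 hb3 hb4 ?_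
  rw [eq_top_iff, ← hy, Subgroup.closure_le]
  rintro _ ⟨k, rfl⟩
  exact hb5 k

section free

def gw : FreeGroup (Fin 2) := FreeGroup.of 0
def gc : FreeGroup (Fin 2) := FreeGroup.of 1

/-- the three relators -/
def r1 (p q m g : ℕ) : FreeGroup (Fin 2) := (gw ^ (m * q))⁻¹ * gc * gw ^ (m * q) * (gc ^ g)⁻¹
def r2 (p : ℕ) : FreeGroup (Fin 2) :=
  gw ^ (p * (p - 1)) * (gc⁻¹ * gw ^ (p * (p - 1)) * gc) *
    ((gc⁻¹ * gw ^ (p * (p - 1)) * gc) * gw ^ (p * (p - 1)))⁻¹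
def r3 (p : ℕ) (N : ℕ → ZMod p → ℕ) (ω : ℕ → FreeGroup (ZMod p)) : FreeGroup (Fin 2) :=
  gc ^ (p ^ 2) * (Wd (gw ^ (p * (p - 1))) gc p N ω)⁻¹

theorem map_Wd {G H : Type} [Group G] [Group H] (f : G →* H) (x c : G) (p : ℕ) (N : ℕ → ZMod p → ℕ)
    (ω : ℕ → FreeGroup (ZMod p)) : f (Wd x c p N ω) = Wd (f x) (f c) p N ω := by
  unfold Wd
  rw [map_list_prod, List.map_map]
  congr 1
  apply List.map_congr_left
  intro r _
  have h : f.comp (FreeGroup.lift (fun k => xl x c (N r k : ℤ))) =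
      FreeGroup.lift (fun k => xl (f x) (f c) (N r k : ℤ)) := by
    ext k
    simp [xl_map]
  exact DFunLike.congr_fun h (ω r)

/-- the set of relators -/
noncomputable def rels (p q m g : ℕ) (N : ℕ → ZMod p → ℕ) (ω : ℕ → FreeGroup (ZMod p)) :
    Finset (FreeGroup (Fin 2)) := by
  classical exact {r1 p q m g, r2 p, r3 p N ω}

theorem rels_card (p q m g : ℕ) (N : ℕ → ZMod p → ℕ) (ω : ℕ → FreeGroup (ZMod p)) :
    (rels p q m g N ω).card ≤ 3 := by
  classical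
  exact Finset.card_le_three

theorem mem_rels {p q m g : ℕ} {N : ℕ → ZMod p → ℕ} {ω : ℕ → FreeGroup (ZMod p)}
    {r : FreeGroup (Fin 2)} :
    r ∈ rels p q m g N ω ↔ r = r1 p q m g ∨ r = r2 p ∨ r = r3 p N ω := by
  classical
  simp [rels]

/-- the relations hold iff the relators are killed -/
theorem fr_iff {p q m g : ℕ} {N : ℕ → ZMod p → ℕ} {ω : ℕ → FreeGroup (ZMod p)} {G : Type}
    [Group G] (f : FreeGroup (Fin 2) →* G) :
    (∀ r ∈ rels p q m g N ω, f r = 1) ↔ Fr p q m g N ω (f gw) (f gc) := by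
  constructor
  · intro h
    have h1 := h _ (mem_rels.2 (Or.inl rfl))
    have h2 := h _ (mem_rels.2 (Or.inr (Or.inl rfl)))
    have h3 := h _ (mem_rels.2 (Or.inr (Or.inr rfl)))
    simp only [r1, r2, r3, map_mul, map_inv, map_pow, map_Wd] at h1 h2 h3
    exact ⟨mul_inv_eq_one.1 h1, mul_inv_eq_one.1 h2, mul_inv_eq_one.1 h3⟩
  · intro h r hr
    rcases mem_rels.1 hr with rfl | rfl | rfl
    · simp only [r1, map_mul, map_inv, map_pow]
      exact mul_inv_eq_one.2 h.r1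
    · simp only [r2, map_mul, map_inv, map_pow]
      exact mul_inv_eq_one.2 h.r2
    · simp only [r3, map_mul, map_inv, map_pow, map_Wd]
      exact mul_inv_eq_one.2 h.r3

end free

/-- the group for a finite group `P` generated by elements of odd order -/
theorem mainP (hTOR : StTOR) (hSEC : StSEC) (hHZI : StHZI) (hBZI : StBZI) (hABW : StABW)
    (hNRM : StNRM) (hFIN : StFIN) (hWEV : StWEV) (hTGT : StTGT) (hTSP : StTSP) (hPRS : StPRS)
    (hARI : StARI) (hNEX : StNEX) (hEXS : StEXS) (P : Type) [Group P] [Finite P]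
    (hP : Subgroup.closure {a : P | Odd (orderOf a)} = ⊤) :
    ∃ (G : Type) (_ : Group G), Finite G ∧
      (∃ R : Finset (FreeGroup (Fin 2)), R.card ≤ 3 ∧
        Nonempty (G ≃* PresentedGroup (R : Set (FreeGroup (Fin 2))))) ∧
      ∀ (S : Type) [Group S], IsSimpleGroup S → ∀ f : P →* S, Function.Surjective f →
        IsCompositionFactor S G := by
  obtain ⟨T, _, hTf, α, β, m, q, hm, hq, hmq, hα, hβ, hT, hA, h, hh⟩ := hTSP P hP
  obtain ⟨ρ, hρ1, hρ2⟩ := hPRS (Fin 2) T ![α, β]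
  obtain ⟨p, g, e1, e2, hL, hpar⟩ := hARI m q (5 + ρ.length) hm hq hmq
  haveI : Fact p.Prime := ⟨hpar.pp⟩
  obtain ⟨N, hN⟩ := hNEX p q m g e1 e2 hpar
  obtain ⟨lam, ω, hsum, hω1, hω2⟩ := hEXS p q m e1 e2 ρ hpar.m1 hpar.q1 hL
  have hev : ∀ r < p - 1, ∀ k0 : ZMod p,
      FreeGroup.lift (fun k => if k = k0 then α else β) (ω r) = 1 := by
    intro r _ k0
    rcases hω2 r with h1 | h1
    · exact hWEV p q m g e1 e2 lam hpar ρ T α β hα hβ hρ1 k0 _ h1
    · rw [h1, map_one]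
  obtain ⟨Q, _, w', c', hFr', φ, hφ⟩ := hTGT p q m g e1 e2 hpar N ω hN T α β hα hβ hT hev
  let R := rels p q m g N ω
  let G := PresentedGroup (R : Set (FreeGroup (Fin 2)))
  let π : FreeGroup (Fin 2) →* G := PresentedGroup.mk (R : Set (FreeGroup (Fin 2)))
  have hπ : ∀ r ∈ R, π r = 1 := fun r hr => PresentedGroup.one_of_mem hr
  have hFr : Fr p q m g N ω (π gw) (π gc) := (fr_iff π).1 hπ
  have hgen : Subgroup.closure {π gw, π gc} = (⊤ : Subgroup G) := by
    rw [← PresentedGroup.closure_range_of (R : Set (FreeGroup (Fin 2)))]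
    congr 1
    ext x
    constructor
    · rintro (rfl | rfl)
      · exact ⟨0, rfl⟩
      · exact ⟨1, rfl⟩
    · rintro ⟨b, rfl⟩
      fin_cases b
      · exact Or.inl rfl
      · exact Or.inr rfl
  -- numbers
  have ha : 1 ≤ p * (p - 1) := by
    have := hpar.p3
    exact Nat.mul_pos (by omega) (by omega)
  have hb : 1 ≤ m * q := Nat.mul_pos hpar.m1 hpar.q1
  obtain ⟨hcM, r, hr1, hwr⟩ := hTOR G (π gw) (π gc) (p * (p - 1)) (m * q) g hpar.g2 ha hb hFr.r1 hFr.r2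
  have hM : 1 ≤ (g ^ (p * (p - 1)) - 1) ^ 2 := by
    apply Nat.one_le_pow
    have h2 : 1 < g ^ (p * (p - 1)) := Nat.one_lt_pow (by omega) (by have := hpar.g2; omega)
    omega
  obtain ⟨n, hn1, hwn⟩ := hABW p (p * (p - 1)) _ N ω G (π gw) (π gc) ha hM hsum hcM hFr.r3
  have hBn : (Bs (π gw ^ (p * (p - 1))) (π gc)).Normal :=
    hNRM G (π gw) (π gc) (p * (p - 1)) (m * q) g _ hpar.cop hM hgen hFr.r1 hcM
  have hBz := hBZI p q m g e1 e2 hpar N ω hN G (π gw) (π gc) hFr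
    (hHZI p q m g e1 e2 lam hpar ρ hρ2 N ω hN hω1 G (π gw) (π gc) hFr)
  have hfin : Finite G := hFIN G (π gw) (π gc) (p * (p - 1)) (m * q) g _ r n ha hb hpar.cop hM hr1 hn1
    hgen hFr.r1 hcM hwr hwn hBz
  refine ⟨G, inferInstance, hfin, ⟨R, rels_card _ _ _ _ _ _, ⟨MulEquiv.refl _⟩⟩, ?_⟩
  -- the map to the target
  let F : FreeGroup (Fin 2) →* Q := FreeGroup.lift ![w', c']
  have hFw : F gw = w' := by simp [F, gw]
  have hFc : F gc = c' := by simp [F, gc]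
  have hF : ∀ r ∈ R, F r = 1 := (fr_iff F).2 (by rw [hFw, hFc]; exact hFr')
  have hF' : ∀ r ∈ (R : Set (FreeGroup (Fin 2))), FreeGroup.lift ![w', c'] r = 1 := hF
  let f : G →* Q := PresentedGroup.toGroup hF'
  have hfw : f (π gw) = w' := by
    have : f (π gw) = ![w', c'] 0 := PresentedGroup.toGroup.of hF' (x := (0 : Fin 2))
    simpa using this
  have hfc : f (π gc) = c' := by
    have : f (π gc) = ![w', c'] 1 := PresentedGroup.toGroup.of hF' (x := (1 : Fin 2))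
    simpa using this
  have hmap : (Bs (π gw ^ (p * (p - 1))) (π gc)).map f = Bs (w' ^ (p * (p - 1))) c' := by
    unfold Bs
    rw [MonoidHom.map_closure, ← Set.range_comp]
    congr 2
    funext j
    simp only [Function.comp, xl_map, map_pow, hfw, hfc]
  have hmem : ∀ b : Bs (π gw ^ (p * (p - 1))) (π gc), f b ∈ Bs (w' ^ (p * (p - 1))) c' := by
    intro b
    rw [← hmap]
    exact ⟨b, b.2, rfl⟩
  let f1 : Bs (π gw ^ (p * (p - 1))) (π gc) →* Bs (w' ^ (p * (p - 1))) c' :=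
    (f.comp (Bs (π gw ^ (p * (p - 1))) (π gc)).subtype).codRestrict _ hmem
  have hf1 : Function.Surjective f1 := by
    rintro ⟨b, hb⟩
    rw [← hmap] at hb
    obtain ⟨a, ha, hab⟩ := hb
    exact ⟨⟨a, ha⟩, Subtype.ext hab⟩
  intro S _ hS f0 hf0
  exact hSEC S G T hS (Bs (π gw ^ (p * (p - 1))) (π gc)) hBn (φ.comp f1) (hφ.comp hf1)
    (Subgroup.closure (Set.range (fun i : ℕ => (β ^ i)⁻¹ * α * β ^ i))) hA (f0.comp h) (hf0.comp hh)


/-- families of simple groups -/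
theorem hFAM (hODD : StODD) (hTOR : StTOR) (hSEC : StSEC) (hHZI : StHZI) (hBZI : StBZI)
    (hABW : StABW) (hNRM : StNRM) (hFIN : StFIN) (hWEV : StWEV) (hTGT : StTGT) (hTSP : StTSP)
    (hPRS : StPRS) (hARI : StARI) (hNEX : StNEX) (hEXS : StEXS) : StFAM := by
  intro n S _ _ hS hab
  obtain ⟨G, _, hfin, hR, hcf⟩ := mainP hTOR hSEC hHZI hBZI hABW hNRM hFIN hWEV hTGT hTSP hPRS
    hARI hNEX hEXS ((i : Fin n) → S i) (hODD n S hab)
  refine ⟨G, inferInstance, hfin, hR, fun i => ?_⟩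
  exact hcf (S i) (hS i) (Pi.evalMonoidHom S i) (Function.surjective_eval i)

end Pool.Agent.Helper50.GP
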