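import Mathlib
import Pool.Agent.Helper41.DZ.CompSeries

/-!
PROJECT GP (MP_b3ce06_al): every finite non-abelian simple group `S` is a composition factor of a finite group
with 2 generators and 3 relators (proof: helper28, /team-store/MP_b3ce06-GENERAL-helper28.md).

The group is `G = ⟨w, c | c^s = c^g, [x, x^c] = 1, c^(p²) = W⟩`, `x = w^(p(p-1))`, `s = w^(mq)`, where `p` is a
large prime, `g` a primitive root modulo `p²`, and `W` is a product of `p - 1` words, one in each of the rows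
`{x_j : j = r mod p}`, `r = 1, ..., p-1`, of the letters `x_j = c^(-j) x c^j`.

All modules are INDEPENDENT (the statements they use are hypotheses: prove
`theorem hXX (h1 : StYY) ... : StXX`).  In a module file: `import Pool.Agent.Helper50.GP.St`.
Use the lemmas `xl_conj_c`, `xl_conj_s`, ... proved below.
-/

set_option autoImplicit false

namespace Pool.Agent.Helper50.GP

/-- the letter `x_j = c^(-j) x c^j` -/
def xl {G : Type} [Group G] (x c : G) (j : ℤ) : G := c ^ (-j) * x * c ^ j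

theorem xl_zero {G : Type} [Group G] (x c : G) : xl x c 0 = x := by simp [xl]

theorem xl_conj_c {G : Type} [Group G] (x c : G) (i j : ℤ) :
    c ^ (-i) * xl x c j * c ^ i = xl x c (j + i) := by
  unfold xl
  group

theorem xl_map {G H : Type} [Group G] [Group H] (f : G →* H) (x c : G) (j : ℤ) :
    f (xl x c j) = xl (f x) (f c) j := by
  simp [xl]

/-- conjugation by `s` multiplies the index by `g` -/
theorem xl_conj_s {G : Type} [Group G] (x c s : G) (g : ℕ) (hs : s⁻¹ * c * s = c ^ g)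
    (hx : s * x = x * s) (j : ℤ) : s⁻¹ * xl x c j * s = xl x c (g * j) := by
  have h1 : ∀ i : ℤ, s⁻¹ * c ^ i * s = c ^ (g * i : ℤ) := by
    intro i
    have := conj_zpow (i := i) (a := s⁻¹) (b := c)
    rw [inv_inv] at this
    rw [← this, hs, zpow_mul, zpow_natCast]
  have h2 : s⁻¹ * x * s = x := by
    rw [mul_assoc, ← hx, inv_mul_cancel_left]
  calc s⁻¹ * xl x c j * s = (s⁻¹ * c ^ (-j) * s) * (s⁻¹ * x * s) * (s⁻¹ * c ^ j * s) := by
        unfold xl; group
    _ = _ := by
        rw [h1, h1, h2]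
        unfold xl
        rw [show (g : ℤ) * -j = -(g * j) by ring]

/-- the long word: a product of words `ω r` in the letters of row `r + 1` -/
def Wd {G : Type} [Group G] (x c : G) (p : ℕ) (N : ℕ → ZMod p → ℕ) (ω : ℕ → FreeGroup (ZMod p)) : G :=
  ((List.range (p - 1)).map (fun r => FreeGroup.lift (fun k => xl x c (N r k : ℤ)) (ω r))).prod

/-- the parameters -/
structure Par (p q m g e1 e2 : ℕ) : Prop where
  pp : p.Prime
  p3 : 3 ≤ p
  g2 : 2 ≤ g
  gp : Nat.Coprime g p
  prim : ∀ z : ℤ, ¬ (p : ℤ) ∣ z → ∃ n : ℕ, ((g ^ n : ℕ) : ZMod (p ^ 2)) = (z : ZMod (p ^ 2))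
  m1 : 1 ≤ m
  q1 : 1 ≤ q
  mq : Nat.Coprime m q
  cop : Nat.Coprime (p * (p - 1)) (m * q)
  e1m : e1 ≡ 1 [MOD m]
  e1q : e1 ≡ 0 [MOD q]
  e2m : e2 ≡ 0 [MOD m]
  e2q : e2 ≡ 1 [MOD q]
  pq : p ≡ 2 [MOD q]

/-- the indices of the letters in the words: powers of `g`, in row `r + 1` -/
def NOk (p g : ℕ) (N : ℕ → ZMod p → ℕ) : Prop :=
  ∀ r < p - 1, ∀ k : ZMod p, (∃ n : ℕ, N r k = g ^ n) ∧
    ((N r k : ℕ) : ZMod (p ^ 2)) = ((r + 1 + p * k.val : ℕ) : ZMod (p ^ 2))

/-- the three relations, `x = w^(p(p-1))`, `s = w^(mq)` -/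
structure Fr (p q m g : ℕ) (N : ℕ → ZMod p → ℕ) (ω : ℕ → FreeGroup (ZMod p)) {G : Type} [Group G]
    (w c : G) : Prop where
  r1 : (w ^ (m * q))⁻¹ * c * w ^ (m * q) = c ^ g
  r2 : w ^ (p * (p - 1)) * (c⁻¹ * w ^ (p * (p - 1)) * c) =
    (c⁻¹ * w ^ (p * (p - 1)) * c) * w ^ (p * (p - 1))
  r3 : c ^ (p ^ 2) = Wd (w ^ (p * (p - 1))) c p N ω

/-! ### The words of one row -/

section words

variable (p q m e1 e2 lam : ℕ)

/-- `u_k = y_k^e1` -/
def Uw (k : ZMod p) : FreeGroup (ZMod p) := FreeGroup.of k ^ e1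

/-- `v_k = y_k^e2` -/
def Vw (k : ZMod p) : FreeGroup (ZMod p) := FreeGroup.of k ^ e2

/-- `δ = v_0 v_1 ... v_(p-1)` -/
def Dw : FreeGroup (ZMod p) := ((List.range p).map (fun i => Vw p e2 (i : ZMod p))).prod

/-- `b_k = v_k⁻¹ δ` -/
def Bw (k : ZMod p) : FreeGroup (ZMod p) := (Vw p e2 k)⁻¹ * Dw p e2

/-- the list of the words -/
def words (ρ : List (FreeGroup (Fin 2))) : List (FreeGroup (ZMod p)) :=
  [FreeGroup.of 0 ^ (m * q),
    Vw p e2 0 * Vw p e2 1 * (Vw p e2 1 * Vw p e2 0)⁻¹,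
    Uw p e1 0 * Uw p e1 1 * (Uw p e1 1 * Uw p e1 0)⁻¹,
    Uw p e1 0 * Bw p e2 1 * (Bw p e2 1 * Uw p e1 0)⁻¹,
    FreeGroup.of 0 ^ (m * q * lam)] ++
  ρ.map (fun ω => FreeGroup.lift ![Uw p e1 0, Bw p e2 0] ω)

end words

/-- exponent sum -/
def es {ι : Type} : FreeGroup ι →* Multiplicative ℤ := FreeGroup.lift (fun _ => Multiplicative.ofAdd 1)

/-- the sum of the exponent sums of `ω 0, ..., ω (p-2)` -/
def esum (p : ℕ) (ω : ℕ → FreeGroup (ZMod p)) : ℤ :=
  ∑ r ∈ Finset.range (p - 1), Multiplicative.toAdd (es (ω r))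

/-- `B`, generated by the letters -/
def Bs {G : Type} [Group G] (x c : G) : Subgroup G := Subgroup.closure (Set.range (xl x c))

/-! ### General modules -/

/-- MODULE TOR (60 lines).
PROOF.  `x = w^a`, `s = w^b`, `x^b = s^a = w^(ab)`.  `x` commutes with `x^c = c⁻¹ x c`, so `x^b` commutes with
` (x^b)^c = c⁻¹ x^b c`; so `u = s^a` commutes with `c⁻¹ u c`.  Induction on `a`: `u⁻¹ c u = c^(g^a)`.  So
`c⁻¹ u c = u (u⁻¹ c⁻¹ u) c = u c^(1-g^a)`, and `u` commutes with `c^(1-g^a)` (exponents in `ℤ`):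
`c^(1-g^a) = u⁻¹ c^(1-g^a) u = c^(g^a (1-g^a))`, so `c^((g^a-1)^2) = 1`.
`M = (g^a-1)^2 ≥ 1` is prime to `g` (`a ≥ 1`), so `g^r = 1 mod M` with `r = φ(M) ≥ 1` (`Nat.ModEq.pow_totient`), also
`g^(ar) = 1 mod M`; ` (s^(ar))⁻¹ c s^(ar) = c^(g^(ar)) = c`. -/
def StTOR : Prop :=
  ∀ (G : Type) [Group G] (w c : G) (a b g : ℕ), 2 ≤ g → 1 ≤ a → 1 ≤ b →
    (w ^ b)⁻¹ * c * w ^ b = c ^ g →
    w ^ a * (c⁻¹ * w ^ a * c) = (c⁻¹ * w ^ a * c) * w ^ a →
    c ^ ((g ^ a - 1) ^ 2) = 1 ∧ ∃ r : ℕ, 1 ≤ r ∧ w ^ (a * b * r) * c = c * w ^ (a * b * r)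

/-- MODULE SCH (50 lines): Schur's theorem.
PROOF.  If the centre has finite index the set of commutators is finite (`[a z, b z'] = [a, b]`), so the
commutator subgroup is finite (`Subgroup.card_commutator_dvd_index_center_pow` or
the instance for `Finite (commutatorSet G)`). -/
def StSCH : Prop :=
  ∀ (G : Type) [Group G], (Subgroup.center G).index ≠ 0 → Finite (commutator G)

/-- MODULE ABF (40 lines).
PROOF.  `G` is commutative (its generators commute: `Subgroup.closure_induction₂` or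
`Subgroup.closureCommGroupOfComm`) and finitely generated, every element has finite order (products of
commuting elements of finite order).  Or: the map `Π zpowers (s) → G` is surjective. -/
def StABF : Prop :=
  ∀ (G : Type) [Group G] (s : Set G), s.Finite → (∀ a ∈ s, ∀ b ∈ s, a * b = b * a) →
    (∀ a ∈ s, IsOfFinOrder a) → Subgroup.closure s = (⊤ : Subgroup G) → Finite G

/-- MODULE CFS (40 lines).
PROOF.  `Subgroup.noncommPiCoprod` is a homomorphism from the finite group `Π i, M i` with range `⨆ i, M i`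
(`Subgroup.noncommPiCoprod_range`). -/
def StCFS : Prop :=
  ∀ (G ι : Type) [Group G] [Finite ι] (M : ι → Subgroup G), (∀ i, Finite (M i)) →
    (∀ i j, i ≠ j → ∀ a ∈ M i, ∀ b ∈ M j, a * b = b * a) → Finite (⨆ i, M i : Subgroup G)

/-- MODULE CPI (80 lines).
PROOF.  `Φ = Subgroup.noncommPiCoprod : Π i, K i →* G` has range `B = ⨆ i, K i`.  `Z = Π i, center (K i)` has finite
index in `Π i, K i` (the kernel of `Π i, K i → Π i, K i ⧸ center (K i)`, a finite group), and `Φ(Z)` is in the centre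
of `B`: an element of `center (K i)` commutes with `K i` and with the other `K j`.  The index of `Φ(Z)` in `B` is
finite (`Subgroup.index_map_dvd` or the surjection of quotients), so the centre of `B` has finite index.
(Alternatively: for each `i` the elements of `K i` centralising `K i` form `Z_i`; `B / ⟨Z_i⟩` is a commuting product
of finite groups, CFS.) -/
def StCPI : Prop :=
  ∀ (G ι : Type) [Group G] [Finite ι] (K : ι → Subgroup G),
    (∀ i, (Subgroup.center (K i)).index ≠ 0) →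
    (∀ i j, i ≠ j → ∀ a ∈ K i, ∀ b ∈ K j, a * b = b * a) →
    (Subgroup.center (⨆ i, K i : Subgroup G)).index ≠ 0

/-- MODULE SEC (80 lines).
PROOF.  `B' = {b ∈ B : f b ∈ A}` (a normal subgroup of `B`) maps onto `A` and onto `S`: by
`Pool.Agent.Helper41.DZ.factor_of_section` (read it in `Pool/Agent/Helper41/DZ/CompSeries.lean`; used at the end of
`Pool/Agent/Helper41/DZ/Assembly.lean`) `S` is a composition factor of `B`.  Then `S` is a composition factor of `G`
as `B` is normal in `G`: induction on `|G|`: if `B = ⊤` transport along `Subgroup.topEquiv`; else take a maximal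
normal `M ≥ B`, `M ≠ ⊤` (`exists_maxNormal`), `G ⧸ M` is simple, `S` is a composition factor of `M` by
induction (`B.subgroupOf M` is normal in `M` and isomorphic to `B`), and `factor_cons`. -/
def StSEC : Prop :=
  ∀ (S G T : Type) [Group S] [Group G] [Group T] [Finite G], IsSimpleGroup S →
    ∀ (B : Subgroup G), B.Normal → ∀ f : B →* T, Function.Surjective f →
    ∀ (A : Subgroup T), A.Normal → ∀ h : A →* S, Function.Surjective h →
    Pool.Agent.Helper41.DZ.IsCompositionFactor S G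

/-! ### The group `H = H_0 / Z(H_0)` -/

/-- MODULE FHA (130 lines).
PROOF.  For `k ≠ l` let `φ(i) = (l - k) i + k`, an affine map with `φ 0 = k`, `φ 1 = l`; the hypothesis says that
every word of the list, evaluated at `y ∘ φ`, is 1.  (`ZMod p` is a field: `Fact p.Prime`.)
First word: `y_k^(mq) = 1` (take `l = k + 1 ≠ k`).  Put `u_k = y_k^e1`, `v_k = y_k^e2`.  Second word:
`v_k v_l = v_l v_k`; this holds for `k = l` too.
So all `v_k` commute and the product `Π_i v_(φ i)` over `i ∈ range p` does not depend on the affine bijection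
`φ`: the list ` (List.range p).map (fun i => v (φ i))` is a permutation of
` (List.range p).map (fun i => v i)`, and the entries commute (`List.Perm.prod_eq'`; or work in the commutative group
`closure (range v)`, or with `Finset.noncommProd`).  So `FreeGroup.lift (y ∘ φ) (Dw ..) = δ`, the product of all `v_k`,
for all affine `φ`.  `δ` commutes with all `v_k`.  Put `b_k = v_k⁻¹ δ`; these commute with each other.
Third word: `u_k u_l = u_l u_k`.  Fourth: `u_k b_l = b_l u_k` (`k ≠ l`).  Words from `ρ`: `lift ![u_k, b_k] ω = 1`.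
`u_k v_k = y_k^(e1+e2) = y_k` as `e1 + e2 = 1 mod mq` (`m`, `q` coprime: `Nat.modEq_and_modEq_iff_modEq_mul`) and
`y_k^(mq) = 1`.  `v_k^q = 1` (`mq ∣ e2 q`), so `δ^q = 1`.  The product of all `b_k` (they commute with each other and with
`δ`) is ` (Π v_k)⁻¹ δ^p = δ^(p-1) = δ` (`p - 1 = 1 mod q`).  So `δ ∈ closure (range b)`, `v_k = δ b_k⁻¹` and
`y_k = u_k v_k` is in the closure of the `u`s and `b`s. -/
def StFHA : Prop :=
  ∀ (p q m g e1 e2 lam : ℕ) [Fact p.Prime], Par p q m g e1 e2 →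
    ∀ (ρ : List (FreeGroup (Fin 2))) (H : Type) [Group H] (y : ZMod p → H),
    (∀ ω ∈ words p q m e1 e2 lam ρ, ∀ u v : ZMod p, u ≠ 0 →
      FreeGroup.lift (fun k => y (u * k + v)) ω = 1) →
    ∃ b : ZMod p → H,
      (∀ k l, k ≠ l → y k ^ e1 * y l ^ e1 = y l ^ e1 * y k ^ e1) ∧
      (∀ k l, k ≠ l → y k ^ e1 * b l = b l * y k ^ e1) ∧
      (∀ k l, b k * b l = b l * b k) ∧
      (∀ k, ∀ ω ∈ ρ, FreeGroup.lift ![y k ^ e1, b k] ω = 1) ∧
      (∀ k, y k ∈ Subgroup.closure (Set.range (fun k => y k ^ e1) ∪ Set.range b))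

/-- MODULE FHB (60 lines, uses CFS).
PROOF.  `T_k = closure {u k, b k}` is the range of the homomorphism `PresentedGroup → H` given by `![u k, b k]`
(`PresentedGroup.toGroup`), so it is finite.  `T_k` and `T_l` commute for `k ≠ l` (on the generators,
`Subgroup.closure_induction`).  `⨆ k, T_k` is finite (CFS) and contains all generators of `H`. -/
def StFHB : Prop :=
  ∀ (ι : Type) [Finite ι] (ρ : List (FreeGroup (Fin 2))), Finite (PresentedGroup {ω | ω ∈ ρ}) →
    ∀ (H : Type) [Group H] (u b : ι → H),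
    (∀ k l, k ≠ l → u k * u l = u l * u k) → (∀ k l, k ≠ l → u k * b l = b l * u k) →
    (∀ k l, b k * b l = b l * b k) → (∀ k, ∀ ω ∈ ρ, FreeGroup.lift ![u k, b k] ω = 1) →
    Subgroup.closure (Set.range u ∪ Set.range b) = (⊤ : Subgroup H) → Finite H

/-- (own module) `H` is finite -/
def StFHF : Prop :=
  ∀ (p q m g e1 e2 lam : ℕ) [Fact p.Prime], Par p q m g e1 e2 →
    ∀ (ρ : List (FreeGroup (Fin 2))), Finite (PresentedGroup {ω | ω ∈ ρ}) →
    ∀ (H : Type) [Group H] (y : ZMod p → H),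
    Subgroup.closure (Set.range y) = (⊤ : Subgroup H) →
    (∀ ω ∈ words p q m e1 e2 lam ρ, ∀ u v : ZMod p, u ≠ 0 →
      FreeGroup.lift (fun k => y (u * k + v)) ω = 1) → Finite H

/-! ### The frame -/

/-- MODULE PER (120 lines).
PROOF.  `x = w^(p(p-1))`, `s = w^(mq)` commute.  `[x_0, x_1] = 1` (`r2`); conjugating by `s^n` (`xl_conj_s`, induction):
`[x_0, x_(g^n)] = 1`.  All letters of `Wd` are `x_(N r k)` with `N r k = g^n`, so `Wd` commutes with `x_0`
(an element of `closure` of these letters; or a product of values of `FreeGroup.lift`, induction on the free group or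
`Subgroup.mem_centralizer`), so `c^(p²)` commutes with `x_0 = x`; conjugating by `c^j`: `c^(p²)` commutes with `x_j`,
so `x_(j+p²) = x_j`, and `x_i = x_j` if `i = j` in `ZMod (p^2)` (`ZMod.intCast_eq_intCast_iff`, `Int.ModEq`).
If `p ∤ i - j`: `prim` gives `n` with `g^n = j - i` in `ZMod (p^2)`, so `x_0` commutes with `x_(g^n) = x_(j-i)`; conjugate
by `c^i`. -/
def StPER : Prop :=
  ∀ (p q m g e1 e2 : ℕ), Par p q m g e1 e2 → ∀ (N : ℕ → ZMod p → ℕ)
    (ω : ℕ → FreeGroup (ZMod p)), NOk p g N → ∀ (G : Type) [Group G] (w c : G), Fr p q m g N ω w c →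
    (∀ j : ℤ, c ^ (p ^ 2) * xl (w ^ (p * (p - 1))) c j = xl (w ^ (p * (p - 1))) c j * c ^ (p ^ 2)) ∧
    (∀ i j : ℤ, (i : ZMod (p ^ 2)) = (j : ZMod (p ^ 2)) →
      xl (w ^ (p * (p - 1))) c i = xl (w ^ (p * (p - 1))) c j) ∧
    (∀ i j : ℤ, ¬ (p : ℤ) ∣ i - j →
      xl (w ^ (p * (p - 1))) c i * xl (w ^ (p * (p - 1))) c j =
        xl (w ^ (p * (p - 1))) c j * xl (w ^ (p * (p - 1))) c i)

/-- MODULE CEN (150 lines, uses PER).
PROOF.  `W_r = lift (k ↦ x_(N r k)) (ω r) = lift (k ↦ x_(r+1+p k)) (ω r)`, `r < p - 1` (PER, periodicity), an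
element of the row `R_(r+1) = closure {x_j : j = r+1 mod p}`.  Rows with different residues commute (PER).
`c^(p²) = W_0 W_1 ... W_(p-2)` commutes with all letters.  Let `h ∈ R_(r+1)`, `r < p-1`.  `h` commutes with `c^(p²)` and
with `W_(r')`, `r' ≠ r`, `r' < p - 1`; so it commutes with `W_r` (in the product of the list all factors except `W_r`
commute with `h`: for `L = L₁ ++ [W_r] ++ L₂`, `h` commutes with `L₁.prod`, `L₂.prod` and with the whole product).
Conjugate by `c^(r+1)` (`xl_conj_c`, `i = -(r+1)`): `lift (k ↦ x_(p k)) (ω r)` commutes with all `x_(pj)`.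
Now conjugate by `s^n` and `c^(pv)`: `lift (k ↦ x_(g^n p k + p v)) (ω r)` commutes with all `x_(g^n p j + p v)`,
`j : ℤ`; as `g` is a unit mod `p²`, these are all `x_(pj)` (periodicity).  Choose `n` with `g^n = u` mod `p` (`prim` for a
lift of `u`); then `x_(g^n p k + p v) = x_(p (u k + v).val)` by periodicity (`p (g^n k + v) = p (u k + v)` mod `p²`). -/
def StCEN : Prop :=
  ∀ (p q m g e1 e2 : ℕ) [Fact p.Prime], Par p q m g e1 e2 → ∀ (N : ℕ → ZMod p → ℕ)
    (ω : ℕ → FreeGroup (ZMod p)), NOk p g N → ∀ (G : Type) [Group G] (w c : G), Fr p q m g N ω w c →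
    ∀ r < p - 1, ∀ u v : ZMod p, u ≠ 0 → ∀ j : ℤ,
      FreeGroup.lift (fun k : ZMod p => xl (w ^ (p * (p - 1))) c (p * ((u * k + v).val : ℤ))) (ω r) *
          xl (w ^ (p * (p - 1))) c (p * j) =
        xl (w ^ (p * (p - 1))) c (p * j) *
          FreeGroup.lift (fun k : ZMod p => xl (w ^ (p * (p - 1))) c (p * ((u * k + v).val : ℤ))) (ω r)

/-- MODULE HZI (100 lines, uses PER CEN FHF).
PROOF.  `H_0 = closure {x_(pj) : j : ℤ} = closure (range y)`, `y k = x_(p k.val)` (PER).  `H = H_0 ⧸ center H_0`, `ȳ k` the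
class of `y k`; it generates `H`.  For a word `ω' ∈ words ..` there is `r < p - 1` with `ω r = ω'` (hypothesis `hω`), and
by CEN `lift (k ↦ y (u k + v)) ω'` commutes with the generators of `H_0`, so it is in the centre of `H_0` and its class
is 1.  FHF: `H` is finite, so the index of the centre is not 0. -/
def StHZI : Prop :=
  ∀ (p q m g e1 e2 lam : ℕ) [Fact p.Prime], Par p q m g e1 e2 →
    ∀ (ρ : List (FreeGroup (Fin 2))), Finite (PresentedGroup {ω | ω ∈ ρ}) →
    ∀ (N : ℕ → ZMod p → ℕ) (ω : ℕ → FreeGroup (ZMod p)), NOk p g N →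
    (∀ ω' ∈ words p q m e1 e2 lam ρ, ∃ r < p - 1, ω r = ω') →
    ∀ (G : Type) [Group G] (w c : G), Fr p q m g N ω w c →
    (Subgroup.center (Subgroup.closure
      (Set.range (fun j : ℤ => xl (w ^ (p * (p - 1))) c (p * j))))).index ≠ 0

/-- MODULE BZI (100 lines, uses PER CPI).
PROOF.  For `r : ZMod p` let `K_r = closure {x_(r.val + p j) : j : ℤ}`.  `K_0` is the group of the hypothesis, `K_r` is its
conjugate by `c^(r.val)` (`xl_conj_c`), so isomorphic to it, and its centre has finite index too.  Different rows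
commute (PER) (on generators, then `Subgroup.closure_induction`), and `⨆ r, K_r = Bs x c` (every integer is
`r.val + p j`).  CPI. -/
def StBZI : Prop :=
  ∀ (p q m g e1 e2 : ℕ) [Fact p.Prime], Par p q m g e1 e2 → ∀ (N : ℕ → ZMod p → ℕ)
    (ω : ℕ → FreeGroup (ZMod p)), NOk p g N → ∀ (G : Type) [Group G] (w c : G), Fr p q m g N ω w c →
    (Subgroup.center (Subgroup.closure
      (Set.range (fun j : ℤ => xl (w ^ (p * (p - 1))) c (p * j))))).index ≠ 0 →
    (Subgroup.center (Bs (w ^ (p * (p - 1))) c)).index ≠ 0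

/-- MODULE ABW (80 lines).
PROOF.  Let `π : G → Abelianization G`.  `π (xl x c j) = π x`, so `π (lift (k ↦ x_(N r k)) (ω r)) = (π x)^(es (ω r))`
(both sides are homomorphisms in `ω r`; `FreeGroup.induction_on` or `FreeGroup.ext_hom`), and
`π (Wd x c p N ω) = (π x)^(esum p ω)`, `x = w^a`.  From `c^(p²) = Wd` and `c^M = 1`:
`1 = (π c)^(p² M) = (π w)^(a M esum)`.  So `n = a M |esum| ≥ 1` satisfies `π (w^n) = 1`, `w^n ∈ commutator G`
(`Abelianization.ker_of`). -/
def StABW : Prop :=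
  ∀ (p a M : ℕ) (N : ℕ → ZMod p → ℕ) (ω : ℕ → FreeGroup (ZMod p)) (G : Type) [Group G] (w c : G),
    1 ≤ a → 1 ≤ M → esum p ω ≠ 0 → c ^ M = 1 → c ^ (p ^ 2) = Wd (w ^ a) c p N ω →
    ∃ n : ℕ, 1 ≤ n ∧ w ^ n ∈ commutator G

/-- MODULE NRM (80 lines).
PROOF.  `x = w^a`, `s = w^b`, `B = Bs x c`.  `a`, `b` are coprime, so `w` is a product of powers of `x` and `s`
(`Int.gcd_eq_gcd_ab`); `G = ⟨x, s, c⟩`.  `B` is stable under conjugation by `c` and `c⁻¹` (`xl_conj_c`), by `x ∈ B`, by `s`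
(`xl_conj_s`: `x_j ↦ x_(gj)`) and by `s⁻¹`: as `c^M = 1` there are only finitely many letters `x_j` (`j` mod `M`),
conjugation by `s` is an injective map of the finite set of letters to itself, so it is bijective.  So the normaliser of
`B` contains `x, s, c` and is `⊤`. -/
def StNRM : Prop :=
  ∀ (G : Type) [Group G] (w c : G) (a b g M : ℕ), Nat.Coprime a b → 1 ≤ M →
    Subgroup.closure {w, c} = (⊤ : Subgroup G) → (w ^ b)⁻¹ * c * w ^ b = c ^ g → c ^ M = 1 →
    (Bs (w ^ a) c).Normal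

/-- MODULE FIN (150 lines, uses SCH ABF NRM).
PROOF.  `x = w^a`, `s = w^b`, `B = Bs x c`, normal (NRM); `w` is a product of powers of `x` and `s` (`a`, `b` coprime).
`G ⧸ B` is finite: it is generated by
the images of `s` and `c` with `c̄^M = 1`, `s̄⁻¹ c̄ s̄ = c̄^g`, `s̄^a = 1` (`s^a = x^b`): every element is
`s̄^i c̄^j` with `i < a`, `j < M` (the set of these elements is closed under multiplication by the
generators on the right or left).
`B' = commutator B` is finite (SCH for `B`).  Let `Z = B ∩ center G` (a subgroup of `B`).  For every `j`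
`x_j^(br) = c^(-j) w^(abr) c^j = w^(abr) ∈ center G` (it commutes with `w` and `c`).  `B ⧸ (B' ⊔ Z)` is abelian, generated by the
finitely many classes of the `x_j`, of finite order: finite (ABF).  `B' ⊔ Z` is a finite extension of `Z` (`B'`
finite).  So `Z` has finite index in `B`, and in `G`; the centre of `G` has finite index, `commutator G` is
finite (SCH).  `G ⧸ commutator G` is generated by the classes of `w` and `c`, which commute and have finite order
(`w^n ∈ commutator G`, `c^M = 1`): finite (ABF).  So `G` is finite. -/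
def StFIN : Prop :=
  ∀ (G : Type) [Group G] (w c : G) (a b g M r n : ℕ), 1 ≤ a → 1 ≤ b → Nat.Coprime a b → 1 ≤ M →
    1 ≤ r → 1 ≤ n → Subgroup.closure {w, c} = (⊤ : Subgroup G) →
    (w ^ b)⁻¹ * c * w ^ b = c ^ g → c ^ M = 1 → w ^ (a * b * r) * c = c * w ^ (a * b * r) →
    w ^ n ∈ commutator G → (Subgroup.center (Bs (w ^ a) c)).index ≠ 0 → Finite G

/-! ### Target and parameters -/

/-- MODULE WEV (110 lines).
PROOF.  `z k = if k = k0 then α else β`.  `α^(e1) = α` (`e1 = 1` mod `m`, `α^m = 1`), `β^(e1) = 1`, `α^(e2) = 1`,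
`β^(e2) = β`, `α^(mq) = β^(mq) = 1`.  So the value of `Uw k` is `α` if `k = k0`, else 1; of `Vw k`: `1` if `k = k0`, else
`β`; `lift z (Dw ..) = Π_(i < p) (if i = k0 then 1 else β) = β^(p-1) = β` (exactly one `i < p` has
` (i : ZMod p) = k0`; every factor is `β^(n i)`, the exponent is `Σ_(i<p) (if (i : ZMod p) = k0 then 0 else 1) = p - 1`, and
`p - 1 = 1` mod `q`); of `Bw k`: `β` if `k = k0`, else 1.  First and fifth word: `z_0^(mq) = 1`.  Second:
powers of `β` (and 1) commute.  Third and fourth: one of the two factors is 1 (`0 ≠ 1` in `ZMod p`).  Words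
from `ρ`: for `k0 = 0` the value is `lift ![α, β] ω = 1`; for `k0 ≠ 0` it is `lift ![1, 1] ω = 1`. -/
def StWEV : Prop :=
  ∀ (p q m g e1 e2 lam : ℕ) [Fact p.Prime], Par p q m g e1 e2 →
    ∀ (ρ : List (FreeGroup (Fin 2))) (T : Type) [Group T] (α β : T), α ^ m = 1 → β ^ q = 1 →
    (∀ ω ∈ ρ, FreeGroup.lift ![α, β] ω = 1) →
    ∀ k0 : ZMod p, ∀ ω ∈ words p q m e1 e2 lam ρ,
      FreeGroup.lift (fun k => if k = k0 then α else β) ω = 1

/-- MODULE TGT (200 lines).
PROOF.  `Q = Equiv.Perm (ZMod (p^2) × T)`.  `μ : (ZMod (p^2) → T) →* Q`, `μ f (i, t) = (i, f i * t)` (injective).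
`F : ZMod (p^2) → T`: `F 0 = α`; `F i = β` if `i ≠ 0` and ` (p : ZMod (p^2)) * i = 0` (that is `i` is a multiple of `p`);
`F i = 1` otherwise.  `X = μ F`, `C (i, t) = (i + 1, t)`, `D (i, t) = (d i, t)`, `d = g⁻¹` in `ZMod (p^2)` (a unit, `gp`).
`F (d i) = F i`, so `X D = D X`; `D⁻¹ C D = C^g`; `X^(mq) = 1` (`α^m = β^q = 1`); `D^(p(p-1)) = 1` (Euler:
`ZMod.pow_totient`, `φ(p²) = p(p-1)`); `C^(p²) = 1`.  Let `a = p(p-1)`, `b = mq` coprime: choose `i1, i2 : ℕ` with
`a i1 = 1 mod b`, `b i2 = 1 mod a` (and put `w' = X^i1 D^i2`, `X`, `D` commute): `w'^a = X^(a i1) D^(a i2) = X`,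
`w'^b = D`.  `c' = C`.
(r1) clear.  `xl X C j = μ (i ↦ F (i + j))`.  (r2): `μ` of two functions with disjoint supports: `F i ≠ 1` only if
`p i = 0`, `F (i+1) ≠ 1` only if `p (i + 1) = 0`; not both (`p ≠ 0` in `ZMod (p^2)`).  (r3): the left side is 1.  For
each `r < p - 1`: `lift (k ↦ xl X C (N r k)) (ω r) = μ (i ↦ lift (k ↦ F (i + N r k)) (ω r))` (both sides are
homomorphisms in `ω r`) and `N r k = r + 1 + p k.val` in `ZMod (p^2)`.  If `p (i + r + 1) ≠ 0`: all letters are 1, so the value is 1.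
Otherwise `i + r + 1 = p l` for some `l : ZMod p` (`l.val`), and `F (p (l.val + k.val)) = if k = -l then α else β`, so the
value is 1 by hypothesis `hW` with `k0 = -l`.
Onto `T`: `Bs X C` is contained in the range of `μ`; `φ (μ f) = f 0` is a homomorphism (`μ` injective) on `Bs X C`;
its image contains `φ (x_0) = F 0 = α` and `φ (x_p) = F p = β`, so it is `⊤`. -/
def StTGT : Prop :=
  ∀ (p q m g e1 e2 : ℕ) [Fact p.Prime], Par p q m g e1 e2 → ∀ (N : ℕ → ZMod p → ℕ)
    (ω : ℕ → FreeGroup (ZMod p)), NOk p g N → ∀ (T : Type) [Group T] (α β : T), α ^ m = 1 →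
    β ^ q = 1 → Subgroup.closure {α, β} = (⊤ : Subgroup T) →
    (∀ r < p - 1, ∀ k0 : ZMod p, FreeGroup.lift (fun k => if k = k0 then α else β) (ω r) = 1) →
    ∃ (Q : Type) (_ : Group Q) (w c : Q), Fr p q m g N ω w c ∧
      ∃ φ : Bs (w ^ (p * (p - 1))) c →* T, Function.Surjective φ

/-- MODULE TSI (180 lines).
PROOF.  `S` is not a 2-group (a finite 2-group has a non-trivial centre, `IsPGroup.center_nontrivial`; `S` simple
would be equal to its centre), so some odd prime `l` divides `|S|`.  `s = {a : S | orderOf a = l}` is not empty (Cauchy),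
stable under conjugation, so `closure s` is a normal subgroup `≠ ⊥`, so it is `⊤`.  Enumerate
`a : ℕ → S` with `a i ∈ s` or `a i = 1`, `s = {a i : i < n}`, `n = |s|`.  `q` = a prime `> max n l` (so `q` is odd and
prime to `l`).  `f0 : ZMod q → S`, `f0 i = a (i.val)` for `i.val < n`, `1` otherwise; `f0^l = 1`.
`Q = Equiv.Perm (ZMod q × S)`, `μ f (i, t) = (i, f i * t)`, `α' = μ f0`, `β' (i, t) = (i + 1, t)`, `β'^q = 1`,
` (β'^i)⁻¹ μ(f) β'^i = μ (j ↦ f (j + i))`.  `T = closure {α', β'}` (a subgroup of `Q`), `α`, `β` the generators in `T`,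
`A = closure {(β^i)⁻¹ α β^i : i : ZMod q (i.val)}`, normal in `T` (stable under `α ∈ A` and `β^(±1)`, `β^q = 1`).
`A` maps into the range of `μ`, and `h (μ f) = f 0` is a homomorphism `A → S`; its image contains `f0 i` for all `i`,
so it contains `s` and is `⊤`. -/
def StTSI : Prop :=
  ∀ (S : Type) [Group S] [Finite S] [IsSimpleGroup S], (∃ a b : S, a * b ≠ b * a) →
    ∃ (T : Type) (_ : Group T) (_ : Finite T) (α β : T) (m q : ℕ), Odd m ∧ Odd q ∧ Nat.Coprime m q ∧
      α ^ m = 1 ∧ β ^ q = 1 ∧ Subgroup.closure {α, β} = (⊤ : Subgroup T) ∧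
      (Subgroup.closure (Set.range (fun i : ℕ => (β ^ i)⁻¹ * α * β ^ i))).Normal ∧
      ∃ h : Subgroup.closure (Set.range (fun i : ℕ => (β ^ i)⁻¹ * α * β ^ i)) →* S,
        Function.Surjective h

/-- MODULE PRS (70 lines).
PROOF.  `f = FreeGroup.lift (i ↦ t i) : FreeGroup ι →* T`, `T` finite, so `ker f` has finite index in a finitely
generated group and is finitely generated (Schreier: `Subgroup.fg_of_index_ne_zero`, `Group.FG`): `ker f = closure s`,
`s` finite; `ρ = s.toList`.  All words of `ρ` are in the kernel.  `PresentedGroup {ω | ω ∈ ρ}` is the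
quotient by the normal closure of `s`, which is `ker f`, and embeds in `T`: finite. -/
def StPRS : Prop :=
  ∀ (ι : Type) [Finite ι] (T : Type) [Group T] [Finite T] (t : ι → T),
    ∃ ρ : List (FreeGroup ι), (∀ ω ∈ ρ, FreeGroup.lift t ω = 1) ∧
      Finite (PresentedGroup {ω | ω ∈ ρ})

/-- MODULE ARI (150 lines, numbers only).
PROOF.  `m q` is odd, so prime to 2: by Dirichlet (`Nat.forall_exists_prime_gt_and_modEq`, or
`Nat.forall_exists_prime_gt_and_eq_mod`) there is a prime `p > L + 3` with `p = 2 mod mq`.  Then `mq` is prime to `p`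
(`p = 2`, `mq` odd) and to `p - 1` (`p - 1 = 1 mod mq`).  `ZMod (p^2)`: the units are cyclic
(`ZMod.isCyclic_units_of_prime_pow` or similar, `p` odd), generator `γ`; `g = γ.val`; `g ≥ 2` as `γ ≠ 0, 1` (the unit group
has `p(p-1) > 1` elements); `g` is prime to `p`; every `z` with `p ∤ z` is a unit of
`ZMod (p^2)`, so it is a power `γ^n`, `n : ℕ`.  `e1, e2`: `Nat.chineseRemainder`. -/
def StARI : Prop :=
  ∀ m q L : ℕ, Odd m → Odd q → Nat.Coprime m q →
    ∃ p g e1 e2 : ℕ, L ≤ p - 1 ∧ Par p q m g e1 e2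

/-- MODULE NEX (50 lines).
PROOF.  For `r < p - 1` and `k : ZMod p` the integer `z = r + 1 + p k.val` is not divisible by `p`; `prim` gives `n`
with `g^n = z` in `ZMod (p^2)`: `N r k = g^n` (choice). -/
def StNEX : Prop :=
  ∀ (p q m g e1 e2 : ℕ), Par p q m g e1 e2 → ∃ N : ℕ → ZMod p → ℕ, NOk p g N

/-- MODULE EXS (80 lines).
PROOF.  `ω_lam r = (words p q m e1 e2 lam ρ).getD r 1`.  The length of the list is `5 + ρ.length ≤ p - 1`, so
`esum p ω_lam` = the sum of `toAdd (es ω')` over the list (all other terms are `es 1 = 0`; an induction on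
the list), and it is `mq·lam` + a constant (only the fifth word
contains `lam`).  For `lam = 0` or `lam = 1` it is not 0, as `mq ≥ 1`.  Every word of the list is `ω_lam r` for some
`r < p - 1` (`List.mem_iff_getElem`), and every `ω_lam r` is in the list or 1. -/
def StEXS : Prop :=
  ∀ (p q m e1 e2 : ℕ) (ρ : List (FreeGroup (Fin 2))), 1 ≤ m → 1 ≤ q → 5 + ρ.length ≤ p - 1 →
    ∃ (lam : ℕ) (ω : ℕ → FreeGroup (ZMod p)), esum p ω ≠ 0 ∧
      (∀ ω' ∈ words p q m e1 e2 lam ρ, ∃ r < p - 1, ω r = ω') ∧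
      (∀ r, ω r ∈ words p q m e1 e2 lam ρ ∨ ω r = 1)

/-- The final statement. -/
def StMAIN : Prop :=
  ∀ (S : Type) [Group S] [Finite S] [IsSimpleGroup S], (∃ a b : S, a * b ≠ b * a) →
    ∃ (G : Type) (_ : Group G), Finite G ∧
      (∃ R : Finset (FreeGroup (Fin 2)), R.card ≤ 3 ∧
        Nonempty (G ≃* PresentedGroup (R : Set (FreeGroup (Fin 2))))) ∧
      Pool.Agent.Helper41.DZ.IsCompositionFactor S G

end Pool.Agent.Helper50.GP
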