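import Pool.Agent.Helper50.GP.St

/-! Project GP: the final form for finite families of simple groups. -/

set_option autoImplicit false

namespace Pool.Agent.Helper50.GP

/-- MODULE TSP (adapt `Pool/Agent/Helper10/GP/M_TSI.lean`): `P` any finite group generated by elements of odd order.
PROOF.  As TSI with `S` replaced by `P`, the elements of order `l` by the elements of odd order, and `m` = the odd part
of `|P|` (`ordCompl[2] (Nat.card P)`): `a^m = 1` for `a` of odd order; `q` a prime `> max n m`, `n` the number of
elements of odd order. -/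
def StTSP : Prop :=
  ∀ (P : Type) [Group P] [Finite P], Subgroup.closure {a : P | Odd (orderOf a)} = ⊤ →
    ∃ (T : Type) (_ : Group T) (_ : Finite T) (α β : T) (m q : ℕ), Odd m ∧ Odd q ∧ Nat.Coprime m q ∧
      α ^ m = 1 ∧ β ^ q = 1 ∧ Subgroup.closure {α, β} = (⊤ : Subgroup T) ∧
      (Subgroup.closure (Set.range (fun i : ℕ => (β ^ i)⁻¹ * α * β ^ i))).Normal ∧
      ∃ h : Subgroup.closure (Set.range (fun i : ℕ => (β ^ i)⁻¹ * α * β ^ i)) →* P,
        Function.Surjective h

/-- MODULE ODD (60 lines).
PROOF.  `S i` is not a 2-group (see TSI), so it has an element of odd prime order; the closure of the elements of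
odd order is normal and not trivial, so it is `⊤`.  `Pi.mulSingle i a` has the order of `a`
(`MonoidHom.mulSingle` is injective: `orderOf_injective`), and the elements `Pi.mulSingle i a` generate the product
(`Subgroup.closure`; every `f` is the product of the `Pi.mulSingle i (f i)`, `Finset.univ_prod_mulSingle` is for
commutative groups: use `Finset.noncommProd` or `Subgroup.pi_mem_of_mulSingle_mem`). -/
def StODD : Prop :=
  ∀ (n : ℕ) (S : Fin n → Type) [∀ i, Group (S i)] [∀ i, Finite (S i)] [∀ i, IsSimpleGroup (S i)],
    (∀ i, ∃ a b : S i, a * b ≠ b * a) →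
    Subgroup.closure {a : (i : Fin n) → S i | Odd (orderOf a)} = ⊤

/-- The final statement for families. -/
def StFAM : Prop :=
  ∀ (n : ℕ) (S : Fin n → Type) [∀ i, Group (S i)] [∀ i, Finite (S i)] [∀ i, IsSimpleGroup (S i)],
    (∀ i, ∃ a b : S i, a * b ≠ b * a) →
    ∃ (G : Type) (_ : Group G), Finite G ∧
      (∃ R : Finset (FreeGroup (Fin 2)), R.card ≤ 3 ∧
        Nonempty (G ≃* PresentedGroup (R : Set (FreeGroup (Fin 2))))) ∧
      ∀ i, Pool.Agent.Helper41.DZ.IsCompositionFactor (S i) G

end Pool.Agent.Helper50.GP
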